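import Mathlib
import Pool.Agent.H341Q.BHFinal

/-!
# There are no translation-invariant Borel hulls on the null and on the meagre ideal

For every `n ≥ 1`, neither the ideal of Lebesgue null sets nor the ideal of meagre sets of `ℝⁿ`
admits a translation-invariant Borel hull (in ZFC).

For the null ideal this follows from the existence of a null nonmeagre subgroup of the reals
(Roslanowski and Shelah), for which a short proof with an ultrafilter is given.

For the meagre ideal we construct a subgroup `H` of the reals, generated by a perfect set, and a
meagre set `C` with `C + H = C` such that every Borel comeagre set `G` with `G + H = G` meets `C`: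
from such a set `G` with `G ∩ C = ∅` one gets a Borel map from the space of codes of trees on the
natural numbers to the reals such that the codes of trees with an infinite branch are exactly those
mapped into `G`, so that these codes would form a Borel set.
-/

set_option autoImplicit false

namespace Pool.Agent.Results.MP_00b317_lc.NoInvariantBorelHull

open MeasureTheory

theorem result (n : ℕ) (hn : 1 ≤ n) (I : Set (Set (EuclideanSpace ℝ (Fin n))))
    (hI : I = {A | volume A = 0} ∨ I = {A | IsMeagre A}) :
    ¬ ∃ ψ : Set (EuclideanSpace ℝ (Fin n)) → Set (EuclideanSpace ℝ (Fin n)),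
      (∀ A ∈ I, ψ A ∈ I ∧ MeasurableSet[borel (EuclideanSpace ℝ (Fin n))] (ψ A) ∧ A ⊆ ψ A) ∧
      ∀ A ∈ I, ∀ x, ψ ((fun y => y + x) '' A) = (fun y => y + x) '' ψ A := by
  rintro ⟨ψ, h1, h2⟩
  rcases hI with rfl | rfl
  · exact Pool.Agent.H341Q.BH.no_hull_null n hn ψ h1 h2
  · exact Pool.Agent.H341Q.BH.no_hull n hn ψ h1 h2

end Pool.Agent.Results.MP_00b317_lc.NoInvariantBorelHull
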